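import Pool.Agent.MP_2ef9c7_co.H88.Poly

/-! The number of lattice points weakly majorized by `lam` is a polynomial in `lam`. -/

namespace Pool.Agent.MP_2ef9c7_co.H88
open Finset

/-- nonnegative integer points with all subset sums bounded by `F` of the size -/
def S (n : ℕ) (F : ℕ → ℤ) : Set (Fin n → ℕ) :=
  {y | ∀ I : Finset (Fin n), ∑ i ∈ I, (y i : ℤ) ≤ F I.card}

/-- the number of such points -/
noncomputable def L (n : ℕ) (F : ℕ → ℤ) : ℕ := (S n F).ncard

/-- sums of initial segments -/
def ps (lam : ℕ → ℕ) (j : ℕ) : ℤ := ∑ i ∈ range j, (lam i : ℤ)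

lemma S_finite (n : ℕ) (F : ℕ → ℤ) : (S n F).Finite := by
  refine (Set.Finite.pi' (fun _ : Fin n => Set.finite_Iic (F 1).toNat)).subset ?_
  intro y hy i
  have := hy {i}
  simp only [sum_singleton, card_singleton] at this
  simp only [Set.mem_Iic]
  omega

lemma L_congr {n : ℕ} {F G : ℕ → ℤ} (h : ∀ j ≤ n, F j = G j) : L n F = L n G := by
  have : S n F = S n G := by
    ext y
    simp only [S, Set.mem_ofPred_eq]
    refine forall_congr' fun I => ?_
    rw [h _ (by simpa using card_le_univ I)]
  simp [L, this]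

lemma S_cons {n : ℕ} (F : ℕ → ℤ) (x : ℕ) (y : Fin n → ℕ) :
    (Fin.cons x y : Fin (n + 1) → ℕ) ∈ S (n + 1) F ↔
      y ∈ S n (fun j => min (F j) (F (j + 1) - x)) := by
  constructor
  · intro h I
    have h1 := h (I.map (Fin.succEmb n))
    have h0 : (0 : Fin (n + 1)) ∉ I.map (Fin.succEmb n) := by
      simp [Fin.succ_ne_zero]
    have h2 := h (Finset.cons 0 (I.map (Fin.succEmb n)) h0)
    simp only [sum_map, card_map, Fin.coe_succEmb, Fin.cons_succ, sum_cons, card_cons,
      Fin.cons_zero] at h1 h2
    simp only [le_min_iff]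
    exact ⟨h1, by linarith⟩
  · intro h I
    have h1 := h (univ.filter (fun i : Fin n => i.succ ∈ I))
    simp only [le_min_iff] at h1
    have e1 : ∑ i ∈ I, (((Fin.cons x y : Fin (n + 1) → ℕ) i : ℕ) : ℤ) =
        (if (0 : Fin (n + 1)) ∈ I then (x : ℤ) else 0) +
          ∑ i ∈ univ.filter (fun i : Fin n => i.succ ∈ I), (y i : ℤ) := by
      rw [← Finset.sum_ite_mem_eq, Fin.sum_univ_succ, Finset.sum_filter]
      simp
    have e2 : I.card = (if (0 : Fin (n + 1)) ∈ I then 1 else 0) +
          (univ.filter (fun i : Fin n => i.succ ∈ I)).card := by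
      rw [Finset.card_eq_sum_ones I, ← Finset.sum_ite_mem_eq, Fin.sum_univ_succ,
        Finset.card_filter]
    rw [e1, e2]
    split_ifs
    · rw [add_comm 1]; linarith [h1.2]
    · simpa using h1.1

lemma L_succ {n : ℕ} (F : ℕ → ℤ) (M : ℕ) (hM : F 1 < M) :
    L (n + 1) F = ∑ x ∈ range M, L n (fun j => min (F j) (F (j + 1) - x)) := by
  classical
  unfold L
  rw [Set.ncard_eq_toFinset_card _ (S_finite _ _),
    Finset.card_eq_sum_card_fiberwise (f := fun y : Fin (n + 1) → ℕ => y 0) (t := range M)]
  · refine Finset.sum_congr rfl fun x _ => ?_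
    rw [Set.ncard_eq_toFinset_card _ (S_finite _ _)]
    symm
    refine Finset.card_bij (fun y _ => (Fin.cons x y : Fin (n + 1) → ℕ)) ?_ ?_ ?_
    · intro y hy
      simp only [Set.Finite.mem_toFinset, mem_filter, Fin.cons_zero, and_true] at hy ⊢
      exact (S_cons F x y).2 hy
    · intro y _ y' _ h
      exact Fin.cons_right_injective (α := fun _ => ℕ) x h
    · intro z hz
      simp only [Set.Finite.mem_toFinset, mem_filter] at hz
      obtain ⟨hz, rfl⟩ := hz
      refine ⟨Fin.tail z, ?_, Fin.cons_self_tail z⟩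
      simp only [Set.Finite.mem_toFinset]
      rw [← S_cons, Fin.cons_self_tail]; exact hz
  · intro y hy
    have := (Set.Finite.mem_toFinset _).1 (Finset.mem_coe.1 hy) {0}
    simp only [sum_singleton, card_singleton] at this
    simp only [coe_range, Set.mem_Iio]
    omega

lemma L_zero (lam : ℕ → ℕ) : L 0 (ps lam) = 1 := by
  have : S 0 (ps lam) = Set.univ := by
    ext y
    simp only [S, Set.mem_ofPred_eq, Set.mem_univ, iff_true]
    intro I
    rw [Finset.eq_empty_of_isEmpty I]; simp [ps]
  rw [L, this, Set.ncard_univ]; simp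

/-- merge the entries `r`, `r+1` -/
def sl {α : Type} (lam : ℕ → α) (r : ℕ) : ℕ → α := fun j => if j < r then lam j else lam (j + 1)

lemma sum_split (lam : ℕ → ℕ) (h : Antitone lam) (φ : ℕ → ℕ) (n : ℕ) :
    ∑ x ∈ range (lam 0 + 1), φ x = ∑ x ∈ range (lam n + 1), φ x +
      ∑ r ∈ range n, ∑ x ∈ Ioc (lam (r + 1)) (lam r), φ x := by
  induction n with
  | zero => simp
  | succ n ih =>
    rw [ih, sum_range_succ (fun r => ∑ x ∈ Ioc (lam (r + 1)) (lam r), φ x)]
    have hle : lam (n + 1) ≤ lam n := h (Nat.le_succ n)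
    have : ∑ x ∈ range (lam n + 1), φ x = ∑ x ∈ range (lam (n + 1) + 1), φ x +
        ∑ x ∈ Ioc (lam (n + 1)) (lam n), φ x := by
      rw [← Finset.sum_union]
      · congr 1; ext x; simp; omega
      · rw [Finset.disjoint_left]; intro x; simp; omega
    rw [this]; ring

lemma ps_succ (lam : ℕ → ℕ) (j : ℕ) : ps lam (j + 1) = ps lam j + lam j := by
  simp [ps, sum_range_succ]

lemma ps_update_le (lam : ℕ → ℕ) (r w j : ℕ) (hj : j ≤ r) :
    ps (Function.update (sl lam r) r w) j = ps lam j := by
  unfold ps
  refine Finset.sum_congr rfl fun i hi => ?_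
  have : i < r := lt_of_lt_of_le (mem_range.1 hi) hj
  rw [Function.update_of_ne (by omega)]
  simp [sl, this]

lemma ps_update_gt (lam : ℕ → ℕ) (r w j : ℕ) (hj : r < j) :
    ps (Function.update (sl lam r) r w) j = ps lam (j + 1) - lam r - lam (r + 1) + w := by
  induction j, hj using Nat.le_induction with
  | base =>
    rw [ps_succ, ps_update_le _ _ _ _ le_rfl, ps_succ, ps_succ]
    simp
    ring
  | succ j hj ih =>
    rw [ps_succ, ih, ps_succ lam (j + 1), Function.update_of_ne (by omega)]
    have : ¬ j < r := by omega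
    simp [sl, this]
    ring

lemma anti_update (lam : ℕ → ℕ) (h : Antitone lam) (r w : ℕ) (h1 : lam (r + 1) ≤ w)
    (h2 : w ≤ lam r) : Antitone (Function.update (sl lam r) r w) := by
  apply antitone_nat_of_succ_le
  intro j
  rcases lt_trichotomy j r with hj | hj | hj
  · rw [Function.update_of_ne (show j ≠ r by omega)]
    by_cases e : j + 1 = r
    · subst e
      simp only [Function.update_self, sl, Nat.lt_add_one, if_true]
      exact h2.trans (h (Nat.le_succ j))
    · rw [Function.update_of_ne e]
      have : j + 1 < r := by omega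
      simp only [sl, hj, this, if_true]
      exact h (Nat.le_succ j)
  · subst hj
    rw [Function.update_of_ne (by omega), Function.update_self]
    simp only [sl, show ¬ (j + 1 < j) by omega, if_false]
    exact (h (Nat.le_succ _)).trans h1
  · rw [Function.update_of_ne (by omega), Function.update_of_ne (by omega)]
    simp only [sl, show ¬ (j + 1 < r) by omega, show ¬ (j < r) by omega, if_false]
    exact h (Nat.le_succ _)

lemma L_rec (lam : ℕ → ℕ) (h : Antitone lam) (n : ℕ) :
    L (n + 1) (ps lam) = (lam n + 1) * L n (ps lam) +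
      ∑ r ∈ range n, ∑ w ∈ Ico (lam (r + 1)) (lam r),
        L n (ps (Function.update (sl lam r) r w)) := by
  rw [L_succ (ps lam) (lam 0 + 1) (by simp [ps]), sum_split lam h _ n]
  congr 1
  · rw [Finset.sum_congr rfl (g := fun _ => L n (ps lam))]
    · simp
    · intro x hx
      apply L_congr
      intro j hj
      have : x ≤ lam j := by
        have := h hj
        have := mem_range.1 hx
        omega
      rw [ps_succ]
      apply min_eq_left
      omega
  · refine Finset.sum_congr rfl fun r _ => ?_
    refine Finset.sum_bij' (fun x _ => lam r + lam (r + 1) - x)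
      (fun w _ => lam r + lam (r + 1) - w) ?_ ?_ ?_ ?_ ?_
    · intro x hx; simp only [mem_Ioc, mem_Ico] at hx ⊢; omega
    · intro x hx; simp only [mem_Ioc, mem_Ico] at hx ⊢; omega
    · intro x hx; simp only [mem_Ioc] at hx ⊢; omega
    · intro x hx; simp only [mem_Ico] at hx ⊢; omega
    · intro x hx
      simp only [mem_Ioc] at hx
      apply L_congr
      intro j _
      rcases le_or_gt j r with hj | hj
      · rw [ps_update_le _ _ _ _ hj, ps_succ]
        have := h hj
        apply min_eq_left
        omega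
      · rw [ps_update_gt _ _ _ _ hj, ps_succ]
        have : lam j ≤ lam (r + 1) := h hj
        rw [min_eq_right (by omega)]
        omega

theorem L_poly (n : ℕ) : ∃ Φ ∈ PF ℕ n, ∀ lam : ℕ → ℕ, Antitone lam →
    (L n (ps lam) : ℚ) = Φ (fun j => (lam j : ℚ)) := by
  induction n with
  | zero => exact ⟨fun _ => 1, PF_const 0 1, fun lam _ => by simp [L_zero]⟩
  | succ n ih =>
    obtain ⟨Φ, hΦ, e⟩ := ih
    choose Ψ hΨ eΨ using fun r : ℕ => PF_sum r hΦ
    have hsl : ∀ r s : ℕ, (fun v : ℕ → ℚ => Ψ r (Function.update (sl v r) r (v s))) ∈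
        PF ℕ (n + 1) := by
      intro r s
      refine PF_comp (fun i (v : ℕ → ℚ) => Function.update (sl v r) r (v s) i) ?_ (hΨ r)
      intro i
      by_cases hi : i = r
      · subst hi; simpa using PF_var s
      · by_cases hi' : i < r
        · simpa [Function.update_of_ne hi, sl, hi'] using PF_var i
        · simpa [Function.update_of_ne hi, sl, hi'] using PF_var (i + 1)
    refine ⟨(fun v => (v n + 1) * Φ v) + ∑ r ∈ range n,
      ((fun v : ℕ → ℚ => Ψ r (Function.update (sl v r) r (v r))) -
        (fun v : ℕ → ℚ => Ψ r (Function.update (sl v r) r (v (r + 1))))), ?_, ?_⟩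
    · refine Submodule.add_mem _ ?_ (Submodule.sum_mem _ fun r _ =>
        Submodule.sub_mem _ (hsl r r) (hsl r (r + 1)))
      have := PF_mul ((PF ℕ 1).add_mem (PF_var n) (PF_const 1 1)) hΦ
      rw [add_comm 1 n] at this
      exact this
    · intro lam h
      rw [L_rec lam h n]
      push_cast
      simp only [Pi.add_apply, Finset.sum_apply, Pi.sub_apply, e lam h]
      congr 1
      refine Finset.sum_congr rfl fun r _ => ?_
      rw [← eΨ r _ _ _ (h (Nat.le_succ r))]
      refine Finset.sum_congr rfl fun w hw => ?_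
      simp only [mem_Ico] at hw
      rw [e _ (anti_update lam h r w hw.1 hw.2.le)]
      congr 1
      ext j
      by_cases hj : j = r
      · subst hj; simp
      · simp only [Function.update_of_ne hj, sl]
        split_ifs <;> rfl

end Pool.Agent.MP_2ef9c7_co.H88
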