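import Mathlib

/-! Definitions: b-parking functions, their polytope, lattice point counts. -/

namespace Pool.Agent.MP_2ef9c7_co.H88
open Pointwise

/-- `β` is a `b`-parking function: its entries are positive and, sorted into nondecreasing
order by a permutation `σ`, the `i`-th smallest is at most `b 0 + ... + b i`. -/
def IsParking {n : ℕ} (b β : Fin n → ℕ) : Prop :=
  (∀ i, 0 < β i) ∧ ∃ σ : Equiv.Perm (Fin n),
    Monotone (fun i => β (σ i)) ∧ ∀ i, β (σ i) ≤ ∑ j ∈ Finset.Iic i, b j

/-- the `b`-parking-function polytope: convex hull of all `b`-parking functions -/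
def parkingPolytope {n : ℕ} (b : Fin n → ℕ) : Set (Fin n → ℝ) :=
  convexHull ℝ {x | ∃ β : Fin n → ℕ, IsParking b β ∧ x = fun i => (β i : ℝ)}

/-- the number of integer points of the dilate `t P` -/
noncomputable def ehr {n : ℕ} (P : Set (Fin n → ℝ)) (t : ℕ) : ℕ :=
  {z : Fin n → ℤ | (fun i => (z i : ℝ)) ∈ (t : ℝ) • P}.ncard

/-- the dimension of `P` (of its affine hull) -/
noncomputable def dim {n : ℕ} (P : Set (Fin n → ℝ)) : ℕ :=
  Module.finrank ℝ (vectorSpan ℝ P)

end Pool.Agent.MP_2ef9c7_co.H88
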