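import Pool.Agent.MP_2ef9c7_co.H88.Count
import Pool.Agent.MP_2ef9c7_co.H88.Defs

/-! Inequality description of the parking function polytope. -/

namespace Pool.Agent.MP_2ef9c7_co.H88
open Finset Pointwise

lemma sum_le_ps (lam : ℕ → ℕ) (h : Antitone lam) (J : Finset ℕ) :
    ∑ j ∈ J, (lam j : ℤ) ≤ ps lam J.card := by
  induction J using Finset.induction_on_max with
  | empty => simp [ps]
  | insert a J ha ih =>
    have hna : a ∉ J := fun h => lt_irrefl _ (ha a h)
    rw [sum_insert hna, card_insert_of_notMem hna, ps_succ]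
    have : J.card ≤ a := by
      have : J ⊆ range a := fun x hx => mem_range.2 (ha x hx)
      simpa using card_le_card this
    have := h this
    omega

lemma abel_aux (a d : ℕ → ℝ) (ha : Antitone a) (hd : ∀ j, 0 ≤ ∑ i ∈ range j, d i) (n : ℕ) :
    a n * ∑ i ∈ range n, d i ≤ ∑ i ∈ range n, a i * d i := by
  induction n with
  | zero => simp
  | succ n ih =>
    have h1 := mul_le_mul_of_nonneg_right (ha (Nat.le_succ n)) (hd (n + 1))
    rw [sum_range_succ (fun i => a i * d i)]
    rw [sum_range_succ] at h1 ⊢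
    nlinarith

variable {n : ℕ}

/-- the inequality description -/
def H (n : ℕ) (lam : ℕ → ℕ) : Set (Fin n → ℝ) :=
  {x | (∀ i, 1 ≤ x i) ∧ ∀ I : Finset (Fin n), ∑ i ∈ I, (x i - 1) ≤ (ps lam I.card : ℝ)}

lemma H_convex (lam : ℕ → ℕ) : Convex ℝ (H n lam) := by
  intro x hx y hy a b ha hb hab
  refine ⟨fun i => ?_, fun I => ?_⟩
  · have := hx.1 i
    have := hy.1 i
    simp only [Pi.add_apply, Pi.smul_apply, smul_eq_mul]
    nlinarith
  · have h1 := mul_le_mul_of_nonneg_left (hx.2 I) ha
    have h2 := mul_le_mul_of_nonneg_left (hy.2 I) hb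
    have : ∑ i ∈ I, ((a • x + b • y) i - 1) =
        a * ∑ i ∈ I, (x i - 1) + b * ∑ i ∈ I, (y i - 1) := by
      rw [mul_sum, mul_sum, ← sum_add_distrib]
      refine sum_congr rfl fun i _ => ?_
      simp only [Pi.add_apply, Pi.smul_apply, smul_eq_mul]
      linear_combination hab
    rw [this]
    have h3 : (ps lam I.card : ℝ) = a * ps lam I.card + b * ps lam I.card := by
      rw [← add_mul, hab, one_mul]
    linarith

lemma hull_subset (b : Fin n → ℕ) (lam : ℕ → ℕ) (h : Antitone lam)
    (hl : ∀ i : Fin n, lam i.rev + 1 = ∑ j ∈ Iic i, b j) :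
    parkingPolytope b ⊆ H n lam := by
  refine convexHull_min ?_ (H_convex lam)
  rintro x ⟨β, ⟨hpos, σ, -, hσ⟩, rfl⟩
  refine ⟨fun i => Nat.one_le_cast.2 (hpos i), fun I => ?_⟩
  have hinj : Function.Injective (fun i : Fin n => ((σ.symm i).rev : ℕ)) :=
    fun i j hij => σ.symm.injective (Fin.rev_injective (Fin.ext hij))
  have h1 := sum_le_ps lam h (I.map ⟨_, hinj⟩)
  rw [sum_map, card_map] at h1
  have h2 : ∑ i ∈ I, ((β i : ℤ) - 1) ≤ ps lam I.card := by
    refine le_trans (sum_le_sum fun i _ => ?_) h1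
    have := hσ (σ.symm i)
    rw [← hl, Equiv.apply_symm_apply] at this
    simp only [Function.Embedding.coeFn_mk]
    omega
  have h3 : ((∑ i ∈ I, ((β i : ℤ) - 1) : ℤ) : ℝ) ≤ ps lam I.card := Int.cast_le.2 h2
  simpa using h3

lemma parking_finite (b : Fin n → ℕ) :
    {x : Fin n → ℝ | ∃ β : Fin n → ℕ, IsParking b β ∧ x = fun i => (β i : ℝ)}.Finite := by
  have h1 : {β : Fin n → ℕ | IsParking b β}.Finite := by
    refine (Set.Finite.pi' (fun _ : Fin n => Set.finite_Iic (∑ j, b j))).subset ?_
    rintro β ⟨-, σ, -, hσ⟩ i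
    have := hσ (σ.symm i)
    rw [Equiv.apply_symm_apply] at this
    exact this.trans (sum_le_sum_of_subset (subset_univ _))
  refine (h1.image (fun β i => (β i : ℝ))).subset ?_
  rintro x ⟨β, hβ, rfl⟩
  exact ⟨β, hβ, rfl⟩

lemma subset_hull (b : Fin n → ℕ) (lam : ℕ → ℕ)
    (hl : ∀ i : Fin n, lam i.rev + 1 = ∑ j ∈ Iic i, b j) :
    H n lam ⊆ parkingPolytope b := by
  intro x hx
  by_contra hcon
  obtain ⟨f, u, hf, hu⟩ := geometric_hahn_banach_closed_point (convex_convexHull ℝ _)
    ((parking_finite b).isClosed_convexHull ℝ) hcon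
  set c : Fin n → ℝ := fun i => f (Pi.single i 1) with hc
  have hfc : ∀ y : Fin n → ℝ, f y = ∑ i, c i * y i := by
    intro y
    conv_lhs => rw [← Finset.univ_sum_single y]
    rw [map_sum]
    refine sum_congr rfl fun i _ => ?_
    have : (Pi.single i (y i) : Fin n → ℝ) = y i • (Pi.single i 1 : Fin n → ℝ) := by
      rw [← Pi.single_smul]; simp
    rw [this, map_smul]; simp [hc, mul_comm]
  set τ := Tuple.sort c with hτ
  have hmono : Monotone (c ∘ τ) := Tuple.monotone_sort c
  set β : Fin n → ℕ := fun i => if 0 < c i then lam (τ.symm i).rev + 1 else 1 with hβ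
  have humono : Monotone (fun i : Fin n => ∑ j ∈ Iic i, b j) := fun i j hij =>
    sum_le_sum_of_subset (Iic_subset_Iic.2 hij)
  have hpark : IsParking b β := by
    refine ⟨fun i => ?_, τ, ?_, ?_⟩
    · simp only [hβ]; split_ifs <;> omega
    · intro i j hij
      have h1 := hmono hij
      have h2 := humono hij
      simp only [Function.comp] at h1
      simp only [← hl] at h2
      simp only [hβ, Equiv.symm_apply_apply]
      split_ifs with h3 h4 h4
      · exact h2
      · exact absurd (lt_of_lt_of_le h3 h1) h4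
      · omega
      · exact le_rfl
    · intro i
      simp only [hβ, Equiv.symm_apply_apply, ← hl]
      split_ifs <;> omega
  have h1 := hf _ (subset_convexHull ℝ _ ⟨β, hpark, rfl⟩)
  rw [hfc] at h1 hu
  -- Abel summation
  set a : ℕ → ℝ := fun j => if hj : j < n then max (c (τ (Fin.rev ⟨j, hj⟩))) 0 else 0 with ha
  set d : ℕ → ℝ := fun j =>
    if hj : j < n then (lam j : ℝ) - (x (τ (Fin.rev ⟨j, hj⟩)) - 1) else 0 with hd
  have hanti : Antitone a := by
    intro i j hij
    simp only [ha]
    split_ifs with h2 h3 h3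
    · exact max_le_max (hmono (Fin.rev_le_rev.2 (by exact hij))) le_rfl
    · omega
    · exact le_max_right _ _
    · exact le_rfl
  have hdn : ∀ j ≤ n, 0 ≤ ∑ i ∈ range j, d i := by
    intro j hj
    have hinj : Function.Injective (fun i : Fin j => τ (Fin.rev (Fin.castLE hj i))) :=
      fun i k hik => Fin.castLE_injective hj (Fin.rev_injective (τ.injective hik))
    have h2 := hx.2 (univ.map ⟨_, hinj⟩)
    rw [sum_map, card_map, card_univ, Fintype.card_fin] at h2
    simp only [Function.Embedding.coeFn_mk, ps] at h2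
    push_cast at h2
    rw [Finset.sum_range (fun i => (lam i : ℝ))] at h2
    rw [Finset.sum_range]
    have : ∀ i : Fin j, d i = (lam i : ℝ) - (x (τ (Fin.rev (Fin.castLE hj i))) - 1) := by
      intro i
      have hi : (i : ℕ) < n := lt_of_lt_of_le i.2 hj
      simp only [hd, hi, dif_pos]
      rfl
    simp only [this, sum_sub_distrib] at h2 ⊢
    linarith
  have hdall : ∀ j, 0 ≤ ∑ i ∈ range j, d i := by
    intro j
    rcases le_total j n with hj | hj
    · exact hdn j hj
    · rw [← sum_range_add_sum_Ico _ hj]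
      have : ∑ i ∈ Ico n j, d i = 0 := by
        refine sum_eq_zero fun i hi => ?_
        have := (mem_Ico.1 hi).1
        simp only [hd]
        rw [dif_neg (by omega)]
      rw [this, add_zero]; exact hdn n le_rfl
  have h3 := abel_aux a d hanti hdall n
  have han : a n = 0 := by simp [ha]
  rw [han, zero_mul, Finset.sum_range] at h3
  have h4 : ∑ i : Fin n, a i * d i ≤ ∑ i, c i * β i - ∑ i, c i * x i := by
    rw [← sum_sub_distrib, ← Equiv.sum_comp (Fin.revPerm.trans τ) (fun i => c i * β i - c i * x i)]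
    refine sum_le_sum fun i _ => ?_
    simp only [ha, hd, hβ, i.2, dif_pos, Equiv.trans_apply, Fin.revPerm_apply, Fin.eta,
      Equiv.symm_apply_apply, Fin.rev_rev]
    have := hx.1 (τ i.rev)
    split_ifs with h5
    · rw [max_eq_left h5.le]; push_cast; ring_nf; rfl
    · rw [max_eq_right (not_lt.1 h5)]; push_cast
      nlinarith [not_lt.1 h5]
  linarith

lemma hull_eq (b : Fin n → ℕ) (lam : ℕ → ℕ) (h : Antitone lam)
    (hl : ∀ i : Fin n, lam i.rev + 1 = ∑ j ∈ Iic i, b j) :
    parkingPolytope b = H n lam :=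
  Set.Subset.antisymm (hull_subset b lam h hl) (subset_hull b lam hl)

lemma ps_nonneg (lam : ℕ → ℕ) (j : ℕ) : 0 ≤ ps lam j :=
  sum_nonneg fun _ _ => by positivity

lemma ps_mul (lam : ℕ → ℕ) (t j : ℕ) : ps (fun i => t * lam i) j = t * ps lam j := by
  simp [ps, mul_sum]

lemma mem_smul_H (lam : ℕ → ℕ) (t : ℕ) (x : Fin n → ℝ) :
    x ∈ (t : ℝ) • H n lam ↔
      (∀ i, (t : ℝ) ≤ x i) ∧ ∀ I : Finset (Fin n), ∑ i ∈ I, (x i - t) ≤ t * (ps lam I.card : ℝ) := by
  have ht0 : (0 : ℝ) ≤ t := by positivity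
  constructor
  · rintro ⟨y, hy, rfl⟩
    refine ⟨fun i => ?_, fun I => ?_⟩
    · have := hy.1 i
      simp only [Pi.smul_apply, smul_eq_mul]
      nlinarith
    · have := mul_le_mul_of_nonneg_left (hy.2 I) ht0
      rw [mul_sum] at this
      refine le_of_eq_of_le (sum_congr rfl fun i _ => ?_) this
      simp only [Pi.smul_apply, smul_eq_mul]; ring
  · rintro ⟨h1, h2⟩
    rcases Nat.eq_zero_or_pos t with rfl | ht
    · refine ⟨fun _ => 1, ⟨fun _ => le_rfl, fun I => ?_⟩, ?_⟩
      · simp only [sub_self, sum_const_zero]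
        exact_mod_cast ps_nonneg lam _
      · ext i
        have h3 := h1 i
        have h4 := h2 {i}
        simp at h3 h4 ⊢
        linarith
    · have ht' : (0 : ℝ) < t := by exact_mod_cast ht
      refine ⟨fun i => x i / t, ⟨fun i => ?_, fun I => ?_⟩, ?_⟩
      · rw [le_div_iff₀ ht']; simpa using h1 i
      · have : ∑ i ∈ I, (x i / t - 1) = (∑ i ∈ I, (x i - t)) / t := by
          rw [sum_div]
          refine sum_congr rfl fun i _ => ?_
          field_simp
        rw [this, div_le_iff₀ ht']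
        linarith [h2 I]
      · ext i
        simp only [Pi.smul_apply, smul_eq_mul]
        field_simp

lemma ehr_H (lam : ℕ → ℕ) (t : ℕ) : ehr (H n lam) t = L n (ps (fun i => t * lam i)) := by
  unfold ehr L
  symm
  refine Set.ncard_congr (fun y _ => fun i => (y i : ℤ) + t) ?_ ?_ ?_
  · intro y hy
    simp only [Set.mem_ofPred_eq, mem_smul_H]
    refine ⟨fun i => ?_, fun I => ?_⟩
    · push_cast; have : (0 : ℝ) ≤ y i := by positivity
      linarith
    · have := hy I
      rw [ps_mul] at this
      push_cast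
      simp only [add_sub_cancel_right]
      exact_mod_cast this
  · intro y y' _ _ h
    ext i
    have := congrFun h i
    simp only [add_left_inj] at this
    exact_mod_cast this
  · intro z hz
    simp only [Set.mem_ofPred_eq, mem_smul_H] at hz
    have h1 : ∀ i, (t : ℤ) ≤ z i := fun i => by exact_mod_cast hz.1 i
    have h2 : ∀ i, (((z i - t).toNat : ℕ) : ℤ) = z i - t := fun i => by have := h1 i; omega
    refine ⟨fun i => (z i - t).toNat, fun I => ?_, ?_⟩
    · rw [ps_mul]
      simp only [h2]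
      exact_mod_cast hz.2 I
    · ext i; simp only [h2]; ring

lemma dim_H (lam : ℕ → ℕ) (h : 1 ≤ lam 0) : dim (H n lam) = n := by
  have h1 : (fun _ => 1 : Fin n → ℝ) ∈ H n lam := by
    refine ⟨fun _ => le_rfl, fun I => ?_⟩
    simp only [sub_self, sum_const_zero]
    exact_mod_cast ps_nonneg lam _
  have h2 : ∀ i : Fin n, (fun _ => 1 : Fin n → ℝ) + Pi.single i 1 ∈ H n lam := by
    intro i
    refine ⟨fun j => ?_, fun I => ?_⟩
    · simp only [Pi.add_apply, Pi.single_apply]; split_ifs <;> simp
    · simp only [Pi.add_apply, add_sub_cancel_left, Pi.single_apply, sum_ite_eq']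
      split_ifs with hi
      · have : 1 ≤ ps lam I.card := by
          have h3 : range 1 ⊆ range I.card := range_subset_range.2 (card_pos.2 ⟨i, hi⟩)
          have h4 : ∑ j ∈ range 1, (lam j : ℤ) ≤ ps lam I.card :=
            sum_le_sum_of_subset_of_nonneg h3 fun _ _ _ => by positivity
          simp at h4
          omega
        exact_mod_cast this
      · exact_mod_cast ps_nonneg lam _
  have h3 : vectorSpan ℝ (H n lam) = ⊤ := by
    rw [eq_top_iff, ← (Pi.basisFun ℝ (Fin n)).span_eq, Submodule.span_le]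
    rintro _ ⟨i, rfl⟩
    have := vsub_mem_vectorSpan ℝ (h2 i) h1
    simpa using this
  rw [dim, h3]; simp

end Pool.Agent.MP_2ef9c7_co.H88
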