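import Pool.Agent.MP_2ef9c7_co.H88.Count

/-! Exact lattice point counts for the weight `(2^7,1,1,0^8)` by Kronecker substitution. -/

namespace Pool.Agent.MP_2ef9c7_co.H88
open Finset

lemma small_sum {Y : Type} (s : Finset Y) (e : Y → ℕ) (B k : ℕ) (hB : s.card < B)
    (h : ∀ y ∈ s, e y < k) : ∑ y ∈ s, B ^ e y < B ^ k := by
  have hB0 : 0 < B := by omega
  rcases Nat.eq_zero_or_pos k with rfl | hk
  · have : s = ∅ := by
      rw [eq_empty_iff_forall_notMem]; intro y hy; simpa using h y hy
    simp [this]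
  · obtain ⟨k, rfl⟩ : ∃ j, k = j + 1 := ⟨k - 1, by omega⟩
    calc ∑ y ∈ s, B ^ e y ≤ ∑ _y ∈ s, B ^ k :=
          sum_le_sum fun y hy => Nat.pow_le_pow_right hB0 (by have := h y hy; omega)
      _ = s.card * B ^ k := by simp
      _ < B * B ^ k := Nat.mul_lt_mul_of_pos_right hB (by positivity)
      _ = B ^ (k + 1) := by ring

lemma split_sum {Y : Type} (s : Finset Y) (e : Y → ℕ) (B k : ℕ) :
    ∑ y ∈ s, B ^ e y = ∑ y ∈ s.filter (fun y => e y < k), B ^ e y +
      B ^ k * ∑ y ∈ s.filter (fun y => ¬ e y < k), B ^ (e y - k) := by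
  rw [← sum_filter_add_sum_filter_not s (fun y => e y < k), mul_sum]
  congr 1
  refine sum_congr rfl fun y hy => ?_
  have := (mem_filter.1 hy).2
  rw [← pow_add]; congr 1; omega

lemma window {Y : Type} (s : Finset Y) (e : Y → ℕ) (B lo len : ℕ) (hB : s.card + 1 < B) :
    (∑ y ∈ s, B ^ e y) / B ^ lo % B ^ len % (B - 1) =
      (s.filter (fun y => lo ≤ e y ∧ e y < lo + len)).card := by
  have hB0 : 0 < B := by omega
  have hc : ∀ p : Y → Prop, ∀ _ : DecidablePred p, (s.filter p).card + 1 < B := fun p _ =>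
    lt_of_le_of_lt (Nat.succ_le_succ (card_filter_le _ _)) hB
  rw [split_sum s e B lo, Nat.add_mul_div_left _ _ (by positivity),
    Nat.div_eq_of_lt (small_sum _ _ _ _ (by have := hc (fun y => e y < lo) inferInstance; omega)
      (fun y hy => (mem_filter.1 hy).2)), zero_add,
    split_sum _ (fun y => e y - lo) B len, Nat.add_mul_mod_self_left, filter_filter]
  have he : s.filter (fun y => ¬ e y < lo ∧ e y - lo < len) =
      s.filter (fun y => lo ≤ e y ∧ e y < lo + len) := by
    refine filter_congr fun y _ => ?_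
    omega
  rw [he, Nat.mod_eq_of_lt (small_sum _ (fun y => e y - lo) _ _
    (by have := hc (fun y => lo ≤ e y ∧ e y < lo + len) inferInstance; omega)
    (fun y hy => by have := (mem_filter.1 hy).2; omega))]
  have h1 : ∀ j, B ^ j ≡ 1 [MOD (B - 1)] := by
    intro j
    have : B ≡ 1 [MOD (B - 1)] := ((Nat.modEq_iff_dvd' hB0).2 dvd_rfl).symm
    simpa using this.pow j
  have h2 : ∀ t : Finset Y, ∑ y ∈ t, B ^ (e y - lo) ≡ t.card [MOD (B - 1)] := by
    intro t
    rw [card_eq_sum_ones]
    exact Nat.ModEq.sum fun y _ => h1 _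
  rw [h2, Nat.mod_eq_of_lt]
  have := hc (fun y => lo ≤ e y ∧ e y < lo + len) inferInstance
  omega

/-- the weight `(2^7,1,1,0,...)` -/
def hh (j : ℕ) : ℕ := if j < 7 then 2 else if j < 9 then 1 else 0

lemma ps_hh (j : ℕ) : ps hh j = min j 7 + min j 9 := by
  induction j with
  | zero => simp [ps]
  | succ j ih => rw [ps_succ, ih, hh]; split_ifs <;> omega

lemma ps_mul' (lam : ℕ → ℕ) (t j : ℕ) : ps (fun i => t * lam i) j = t * ps lam j := by
  simp [ps, mul_sum]

lemma mem_S_hh (c : ℕ) (y : Fin 17 → ℕ) : y ∈ S 17 (ps (fun j => c * hh j)) ↔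
    (∀ i, y i ≤ 2 * c) ∧ ∑ i, (y i - c) ≤ 7 * c ∧ ∑ i, y i ≤ 16 * c := by
  classical
  have key : y ∈ S 17 (ps (fun j => c * hh j)) ↔
      ∀ I : Finset (Fin 17), ∑ i ∈ I, y i ≤ c * (min I.card 7 + min I.card 9) := by
    simp only [S, Set.mem_ofPred_eq, ps_mul', ps_hh]
    refine forall_congr' fun I => ?_
    constructor
    · intro h; exact_mod_cast h
    · intro h; exact_mod_cast h
  rw [key]
  constructor
  · intro h
    refine ⟨fun i => ?_, ?_, ?_⟩
    · have := h {i}
      simp at this; omega
    · have h1 := h (univ.filter (fun i => c < y i))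
      have h2 : ∑ i, (y i - c) + c * (univ.filter (fun i => c < y i)).card =
          ∑ i ∈ univ.filter (fun i => c < y i), y i := by
        rw [card_filter, sum_filter, mul_sum, ← sum_add_distrib]
        refine sum_congr rfl fun i _ => ?_
        split_ifs <;> omega
      have h3 : c * (min (univ.filter (fun i => c < y i)).card 7 +
          min (univ.filter (fun i => c < y i)).card 9) ≤
          c * (7 + (univ.filter (fun i => c < y i)).card) :=
        Nat.mul_le_mul_left _ (by omega)
      rw [mul_add c 7] at h3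
      omega
    · have := h univ
      simp at this; omega
  · rintro ⟨h1, h2, h3⟩ I
    have a1 : ∑ i ∈ I, y i ≤ c * (I.card + I.card) := by
      calc ∑ i ∈ I, y i ≤ ∑ _i ∈ I, 2 * c := sum_le_sum fun i _ => h1 i
        _ = c * (I.card + I.card) := by simp; ring
    have a2 : ∑ i ∈ I, y i ≤ c * (7 + I.card) := by
      calc ∑ i ∈ I, y i ≤ ∑ i ∈ I, ((y i - c) + c) := sum_le_sum fun i _ => by omega
        _ = ∑ i ∈ I, (y i - c) + c * I.card := by rw [sum_add_distrib]; simp [mul_comm]
        _ ≤ ∑ i, (y i - c) + c * I.card :=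
          Nat.add_le_add_right (sum_le_sum_of_subset (subset_univ _)) _
        _ ≤ c * (7 + I.card) := by rw [mul_add]; omega
    have a3 : ∑ i ∈ I, y i ≤ c * (7 + 9) :=
      (sum_le_sum_of_subset (subset_univ _)).trans (by omega)
    rcases le_total I.card 7 with h7 | h7
    · rwa [min_eq_left h7, min_eq_left (by omega)]
    · rcases le_total I.card 9 with h9 | h9
      · rwa [min_eq_right h7, min_eq_left h9]
      · rwa [min_eq_right h7, min_eq_right h9]

/-- generating number -/
def XX (c : ℕ) : ℕ :=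
  (∑ v ∈ range (2 * c + 1), (2 ^ 90) ^ (min v c + (17 * c + 1) * (v - c))) ^ 17

/-- extracted count -/
def cnt (c : ℕ) : ℕ := ∑ a ∈ range (7 * c + 1),
  ((XX c >>> (90 * ((17 * c + 1) * a))) % (2 ^ 90) ^ (16 * c - a + 1)) % (2 ^ 90 - 1)

theorem L_hh (c : ℕ) (hc : c ≤ 17) : L 17 (ps (fun j => c * hh j)) = cnt c := by
  classical
  set Y := Fintype.piFinset (fun _ : Fin 17 => range (2 * c + 1)) with hY
  set e : (Fin 17 → ℕ) → ℕ := fun y => ∑ i, min (y i) c + (17 * c + 1) * ∑ i, (y i - c) with he
  have hX : XX c = ∑ y ∈ Y, (2 ^ 90) ^ e y := by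
    have := Finset.prod_univ_sum (fun _ : Fin 17 => range (2 * c + 1))
      (fun _ v => ((2 : ℕ) ^ 90) ^ (min v c + (17 * c + 1) * (v - c)))
    rw [prod_const, card_univ, Fintype.card_fin] at this
    rw [XX, this]
    refine sum_congr rfl fun y _ => ?_
    rw [prod_pow_eq_pow_sum, he]
    simp only [sum_add_distrib, mul_sum]
  have hcard : Y.card + 1 < 2 ^ 90 := by
    rw [hY, Fintype.card_piFinset]
    simp only [card_range, prod_const, card_univ, Fintype.card_fin]
    have : (2 * c + 1) ^ 17 ≤ 35 ^ 17 := Nat.pow_le_pow_left (by omega) _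
    have h2 : 35 ^ 17 + 1 < 2 ^ 90 := by norm_num
    omega
  have hS : S 17 (ps (fun j => c * hh j)) =
      ↑(Y.filter (fun y => ∑ i, (y i - c) ≤ 7 * c ∧ ∑ i, y i ≤ 16 * c)) := by
    ext y
    rw [mem_S_hh]
    simp [hY]
  rw [L, hS, Set.ncard_coe_finset, cnt,
    card_eq_sum_card_fiberwise (f := fun y : Fin 17 → ℕ => ∑ i, (y i - c)) (t := range (7 * c + 1))]
  · refine sum_congr rfl fun a ha => ?_
    rw [Nat.shiftRight_eq_div_pow, pow_mul, hX, window _ _ _ _ _ hcard, filter_filter]
    refine congrArg Finset.card (filter_congr fun y _ => ?_)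
    have ha' := mem_range.1 ha
    have h1 : ∑ i, min (y i) c + ∑ i, (y i - c) = ∑ i, y i := by
      rw [← sum_add_distrib]
      exact sum_congr rfl fun i _ => by omega
    have h2 : ∑ i, min (y i) c ≤ 17 * c := by
      calc ∑ i, min (y i) c ≤ ∑ _i : Fin 17, c := sum_le_sum fun i _ => min_le_right _ _
        _ = 17 * c := by simp
    simp only [he]
    generalize ∑ i, min (y i) c = s at *
    generalize ∑ i, (y i - c) = u at *
    generalize ∑ i, y i = z at *
    constructor
    · rintro ⟨⟨h3, h4⟩, rfl⟩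
      constructor <;> omega
    · rintro ⟨h3, h4⟩
      have : u = a := by
        rcases lt_trichotomy u a with h | h | h
        · have : (17 * c + 1) * (u + 1) ≤ (17 * c + 1) * a := Nat.mul_le_mul_left _ h
          rw [mul_add] at this
          omega
        · exact h
        · have : (17 * c + 1) * (a + 1) ≤ (17 * c + 1) * u := Nat.mul_le_mul_left _ h
          rw [mul_add] at this
          omega
      subst this
      refine ⟨⟨?_, ?_⟩, rfl⟩ <;> omega
  · intro y hy
    have := (mem_filter.1 (mem_coe.1 hy)).2.1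
    simp only [coe_range, Set.mem_Iio]
    omega

/-- weights extracting the quadratic coefficient (times 605404800) from the values at 0..17 -/
def WW (t : ℕ) : ℤ :=
  [3100494357, -25107585720, 121014106080, -426251201600, 1148927392200, -2427231424800,
    4087010651360, -5545000443840, 6097695553950, -5442885848400, 3931959935904, -2280879706560,
    1047768252440, -372699213600, 99040951200, -18513782336, 2172264045, -120394680].getD t 0

theorem WW_pow : ∀ k ∈ range 18, ∑ t ∈ range 18, WW t * (t : ℤ) ^ k =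
    if k = 2 then 605404800 else 0 := by decide +kernel

theorem WW_basis : ∀ i ∈ range 18,
    0 ≤ ∑ t ∈ range 18, WW t * ((t : ℤ) ^ i * ((t : ℤ) + 1) ^ (17 - i)) := by decide +kernel

theorem cnt0 : cnt 0 = 1 := by decide +kernel
theorem cnt1 : cnt 1 = 56978306 := by decide +kernel
theorem cnt2 : cnt 2 = 304646406061 := by decide +kernel
theorem cnt3 : cnt 3 = 88829150672692 := by decide +kernel
theorem cnt4 : cnt 4 = 6207431534804823 := by decide +kernel
theorem cnt5 : cnt 5 = 185039247639042566 := by decide +kernel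
theorem cnt6 : cnt 6 = 3130190190478774917 := by decide +kernel
theorem cnt7 : cnt 7 = 35345999209886172192 := by decide +kernel
theorem cnt8 : cnt 8 = 294804396317781724943 := by decide +kernel
theorem cnt9 : cnt 9 = 1942764635156885335484 := by decide +kernel
theorem cnt10 : cnt 10 = 10604028977623939662313 := by decide +kernel
theorem cnt11 : cnt 11 = 49609855895772257435202 := by decide +kernel
theorem cnt12 : cnt 12 = 204112578332682143160335 := by decide +kernel
theorem cnt13 : cnt 13 = 753283415540366903278896 := by decide +kernel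
theorem cnt14 : cnt 14 = 2532657336268151043242461 := by decide +kernel
theorem cnt15 : cnt 15 = 7854485620326430955944390 := by decide +kernel
theorem cnt16 : cnt 16 = 22696814282949334324010379 := by decide +kernel
theorem cnt17 : cnt 17 = 61620774141724037288787388 := by decide +kernel

theorem WW_cnt : ∑ t ∈ range 18, WW t * (cnt t : ℤ) = -1901641386 := by
  simp only [sum_range_succ, sum_range_zero, cnt0, cnt1, cnt2, cnt3, cnt4, cnt5, cnt6, cnt7, cnt8, cnt9, cnt10, cnt11, cnt12, cnt13, cnt14, cnt15, cnt16, cnt17]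
  decide +kernel

end Pool.Agent.MP_2ef9c7_co.H88
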