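import Pool.Agent.MP_2ef9c7_co.H88.Hull
import Pool.Agent.MP_2ef9c7_co.H88.Kron

/-! A b-parking-function polytope of length 17 with a negative magic coefficient. -/

namespace Pool.Agent.MP_2ef9c7_co.H88
open Finset

lemma mon2 (m : Multiset (Fin 2)) : ∃ i j : ℕ, i + j = m.card ∧
    ∀ v : Fin 2 → ℚ, (m.map v).prod = v 0 ^ i * v 1 ^ j := by
  induction m using Multiset.induction_on with
  | empty => exact ⟨0, 0, by simp, by simp⟩
  | cons a m ih =>
    obtain ⟨i, j, h1, h2⟩ := ih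
    fin_cases a
    · refine ⟨i + 1, j, by simp; omega, fun v => ?_⟩
      simp [h2]; ring
    · refine ⟨i, j + 1, by simp; omega, fun v => ?_⟩
      simp [h2]; ring

lemma WW_powQ (k : ℕ) (hk : k ≤ 17) : ∑ t ∈ range 18, (WW t : ℚ) * (t : ℚ) ^ k =
    if k = 2 then 605404800 else 0 := by
  have := WW_pow k (mem_range.2 (by omega))
  have h2 := congrArg (Int.cast : ℤ → ℚ) this
  push_cast at h2
  exact h2

lemma quad {G : (Fin 2 → ℚ) → ℚ} (hG : G ∈ PF (Fin 2) 17) : ∃ α β : ℚ, ∀ N : ℚ,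
    ∑ t ∈ range 18, (WW t : ℚ) * G ![t, N * t] =
      N ^ 2 * ∑ t ∈ range 18, (WW t : ℚ) * G ![0, t] + α * N + β := by
  induction hG using Submodule.span_induction with
  | mem F hF =>
    obtain ⟨m, hm, rfl⟩ := hF
    obtain ⟨i, j, h1, h2⟩ := mon2 m
    simp only [h2, Matrix.cons_val_zero, Matrix.cons_val_one]
    have e1 : ∀ N : ℚ, ∑ t ∈ range 18, (WW t : ℚ) * ((t : ℚ) ^ i * (N * t) ^ j) =
        N ^ j * (if i + j = 2 then 605404800 else 0) := by
      intro N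
      rw [← WW_powQ (i + j) (by omega), mul_sum]
      exact sum_congr rfl fun t _ => by ring
    have e2 : ∑ t ∈ range 18, (WW t : ℚ) * ((0 : ℚ) ^ i * (t : ℚ) ^ j) =
        0 ^ i * (if j = 2 then 605404800 else 0) := by
      rw [← WW_powQ j (by omega), mul_sum]
      exact sum_congr rfl fun t _ => by ring
    simp only [e1, e2]
    by_cases h : i + j = 2
    · have : (i = 0 ∧ j = 2) ∨ (i = 1 ∧ j = 1) ∨ (i = 2 ∧ j = 0) := by omega
      rcases this with ⟨rfl, rfl⟩ | ⟨rfl, rfl⟩ | ⟨rfl, rfl⟩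
      · exact ⟨0, 0, fun N => by simp⟩
      · exact ⟨605404800, 0, fun N => by simp [mul_comm]⟩
      · exact ⟨0, 605404800, fun N => by simp⟩
    · refine ⟨0, 0, fun N => ?_⟩
      by_cases hj : j = 2
      · have : i ≠ 0 := by omega
        simp [h, this]
      · simp [h, hj]
  | zero => exact ⟨0, 0, by simp⟩
  | add F F' _ _ h1 h2 =>
    obtain ⟨a, b, e1⟩ := h1
    obtain ⟨a', b', e2⟩ := h2
    refine ⟨a + a', b + b', fun N => ?_⟩
    simp only [Pi.add_apply, mul_add, sum_add_distrib, e1 N, e2 N]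
    ring
  | smul c F _ h1 =>
    obtain ⟨a, b, e1⟩ := h1
    refine ⟨c * a, c * b, fun N => ?_⟩
    have : ∀ (t : ℕ) (v : Fin 2 → ℚ), (WW t : ℚ) * (c • F) v = c * ((WW t : ℚ) * F v) := by
      intro t v; simp only [Pi.smul_apply, smul_eq_mul]; ring
    simp only [this, ← mul_sum, e1 N]
    ring

lemma pow_magic (d : ℕ) : ∀ k ≤ d, ∃ μ : ℕ → ℚ, ∀ t : ℚ,
    t ^ k = ∑ i ∈ range (d + 1), μ i * t ^ i * (t + 1) ^ (d - i) := by
  induction d with
  | zero =>
    intro k hk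
    obtain rfl : k = 0 := by omega
    exact ⟨fun _ => 1, by simp⟩
  | succ d ih =>
    intro k hk
    rcases Nat.lt_or_ge k (d + 1) with h | h
    · obtain ⟨μ, e⟩ := ih k (by omega)
      refine ⟨fun i => (if i < d + 1 then μ i else 0) - (if i = 0 then 0 else μ (i - 1)),
        fun t => ?_⟩
      simp only [sub_mul, sum_sub_distrib]
      rw [sum_range_succ _ (d + 1), sum_range_succ' _ (d + 1)]
      have a1 : ∑ i ∈ range (d + 1), (if i < d + 1 then μ i else 0) * t ^ i *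
          (t + 1) ^ (d + 1 - i) = t ^ k * (t + 1) := by
        rw [e t, sum_mul]
        refine sum_congr rfl fun i hi => ?_
        have hi' := mem_range.1 hi
        rw [if_pos hi', show d + 1 - i = (d - i) + 1 by omega]
        ring
      have a2 : ∑ i ∈ range (d + 1), (if i + 1 = 0 then 0 else μ (i + 1 - 1)) * t ^ (i + 1) *
          (t + 1) ^ (d + 1 - (i + 1)) = t ^ k * t := by
        rw [e t, sum_mul]
        refine sum_congr rfl fun i hi => ?_
        rw [if_neg (by omega), show d + 1 - (i + 1) = d - i by omega, Nat.add_sub_cancel]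
        ring
      rw [a1, a2]
      simp
      ring
    · obtain rfl : k = d + 1 := by omega
      refine ⟨fun i => if i = d + 1 then 1 else 0, fun t => ?_⟩
      simp

lemma magic {G : (Fin 2 → ℚ) → ℚ} {d : ℕ} (hG : G ∈ PF (Fin 2) d) (N : ℚ) :
    ∃ μ : ℕ → ℚ, ∀ t : ℚ,
      G ![t, N * t] = ∑ i ∈ range (d + 1), μ i * t ^ i * (t + 1) ^ (d - i) := by
  induction hG using Submodule.span_induction with
  | mem F hF =>
    obtain ⟨m, hm, rfl⟩ := hF
    obtain ⟨i, j, h1, h2⟩ := mon2 m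
    obtain ⟨μ, e⟩ := pow_magic d (i + j) (by omega)
    refine ⟨fun k => N ^ j * μ k, fun t => ?_⟩
    simp only [h2, Matrix.cons_val_zero, Matrix.cons_val_one, mul_assoc, ← mul_sum]
    have := e t
    simp only [mul_assoc] at this
    rw [← this]; ring
  | zero => exact ⟨0, by simp⟩
  | add F F' _ _ h1 h2 =>
    obtain ⟨a, e1⟩ := h1
    obtain ⟨a', e2⟩ := h2
    refine ⟨a + a', fun t => ?_⟩
    simp only [Pi.add_apply, add_mul, sum_add_distrib, e1 t, e2 t]
  | smul c F _ h1 =>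
    obtain ⟨a, e1⟩ := h1
    refine ⟨fun k => c * a k, fun t => ?_⟩
    simp only [Pi.smul_apply, smul_eq_mul, e1 t, mul_sum, mul_assoc]

/-- the vector `(1^8, N+1, 1, N+1, 1^6)` -/
def bb (N : ℕ) : Fin 17 → ℕ := fun i => if i = 8 ∨ i = 10 then N + 1 else 1

lemma hh_anti : Antitone hh := by
  intro i j hij
  simp only [hh]; split_ifs <;> omega

lemma lam_anti (a c : ℕ) : Antitone (fun j => a * (16 - j) + c * hh j) := fun _ _ hij =>
  Nat.add_le_add (Nat.mul_le_mul_left _ (by omega)) (Nat.mul_le_mul_left _ (hh_anti hij))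

lemma bb_sum (N : ℕ) (i : Fin 17) :
    (1 * (16 - (i.rev : ℕ)) + N * hh i.rev) + 1 = ∑ j ∈ Iic i, bb N j := by
  have h1 : ∀ j, bb N j = 1 + N * (if j = 8 ∨ j = 10 then 1 else 0) := by
    intro j; simp only [bb]; split_ifs <;> ring
  have h2 : ∀ i : Fin 17, ∑ j ∈ Iic i, (if j = 8 ∨ j = 10 then 1 else 0) = hh i.rev := by
    decide
  simp only [h1, sum_add_distrib, ← mul_sum, h2, sum_const, Fin.card_Iic, smul_eq_mul]
  have := Fin.val_rev i
  have := i.2
  omega

lemma PF_aff (p q : ℚ) : (fun w : Fin 2 → ℚ => w 0 * p + w 1 * q) ∈ PF (Fin 2) 1 := by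
  have h1 := (PF (Fin 2) 1).smul_mem p (PF_var (0 : Fin 2))
  have h2 := (PF (Fin 2) 1).smul_mem q (PF_var (1 : Fin 2))
  have h3 := (PF (Fin 2) 1).add_mem h1 h2
  convert h3 using 1
  ext w; simp [mul_comm]

lemma exists_G (n : ℕ) : ∃ G ∈ PF (Fin 2) n, ∀ a c : ℕ,
    (L n (ps (fun j => a * (16 - j) + c * hh j)) : ℚ) = G ![a, c] := by
  obtain ⟨Φ, hΦ, e⟩ := L_poly n
  refine ⟨_, PF_comp (fun j (w : Fin 2 → ℚ) => w 0 * ((16 - j : ℕ) : ℚ) + w 1 * (hh j : ℚ))
    (fun j => PF_aff _ _) hΦ, fun a c => ?_⟩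
  rw [e _ (lam_anti a c)]
  simp

theorem main : ∃ N₀ : ℕ, ∀ N ≥ N₀, ∃ μ : ℕ → ℚ,
    (∀ t : ℕ, (ehr (parkingPolytope (bb N)) t : ℚ) =
      ∑ i ∈ range (17 + 1), μ i * (t : ℚ) ^ i * ((t : ℚ) + 1) ^ (17 - i)) ∧
    ∃ i ≤ 17, μ i < 0 := by
  obtain ⟨G, hG, hval⟩ := exists_G 17
  obtain ⟨α, β, hq⟩ := quad hG
  have h0 : ∑ t ∈ range 18, (WW t : ℚ) * G ![0, t] = -1901641386 := by
    have h1 := congrArg (Int.cast : ℤ → ℚ) WW_cnt
    push_cast at h1
    rw [← h1]
    refine sum_congr rfl fun t ht => ?_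
    have h2 := hval 0 t
    simp only [zero_mul, zero_add, Nat.cast_zero] at h2
    rw [← h2, L_hh t (by have := mem_range.1 ht; omega)]
  rw [h0] at hq
  obtain ⟨N₀, hN₀⟩ := exists_nat_ge (|α| + |β| + 1)
  refine ⟨N₀, fun N hN => ?_⟩
  obtain ⟨μ, hμ⟩ := magic hG N
  have hehr : ∀ t : ℕ, (ehr (parkingPolytope (bb N)) t : ℚ) = G ![t, N * t] := by
    intro t
    rw [hull_eq (bb N) _ (lam_anti 1 N) (bb_sum N), ehr_H]
    have := hval t (N * t)
    push_cast at this
    rw [← this]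
    have h5 : (fun j => t * (1 * (16 - j) + N * hh j)) =
        (fun j => t * (16 - j) + N * t * hh j) := by
      ext j
      ring
    rw [h5]
  refine ⟨μ, fun t => by rw [hehr, hμ], ?_⟩
  by_contra hcon
  push Not at hcon
  have h1 : 0 ≤ ∑ t ∈ range 18, (WW t : ℚ) * G ![t, N * t] := by
    simp only [hμ, mul_sum]
    rw [sum_comm]
    refine sum_nonneg fun i hi => ?_
    have h2 := WW_basis i hi
    have h3 : (0 : ℚ) ≤ ((∑ t ∈ range 18, WW t * ((t : ℤ) ^ i * ((t : ℤ) + 1) ^ (17 - i)) : ℤ) :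
      ℚ) := by exact_mod_cast h2
    push_cast at h3
    have h4 := mul_nonneg (hcon i (by have := mem_range.1 hi; omega)) h3
    rw [mul_sum] at h4
    exact le_of_le_of_eq h4 (sum_congr rfl fun t _ => by ring)
  rw [hq] at h1
  have hN' : |α| + |β| + 1 ≤ (N : ℚ) := hN₀.trans (by exact_mod_cast hN)
  have a1 := le_abs_self α
  have a2 := le_abs_self β
  have a3 := abs_nonneg α
  have a4 := abs_nonneg β
  nlinarith

lemma dim_bb (N : ℕ) : dim (parkingPolytope (bb N)) = 17 := by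
  rw [hull_eq (bb N) _ (lam_anti 1 N) (bb_sum N)]
  exact dim_H _ (by omega)

end Pool.Agent.MP_2ef9c7_co.H88
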