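import Mathlib

/-! Polynomial functions of bounded total degree, and discrete antiderivatives. -/

namespace Pool.Agent.MP_2ef9c7_co.H88
open Finset

/-- polynomial functions of total degree at most `d` -/
def PF (ι : Type) (d : ℕ) : Submodule ℚ ((ι → ℚ) → ℚ) :=
  Submodule.span ℚ {F | ∃ m : Multiset ι, m.card ≤ d ∧ F = fun v => (m.map v).prod}

variable {ι κ : Type}

lemma PF_mono {d e : ℕ} (h : d ≤ e) : PF ι d ≤ PF ι e := by
  apply Submodule.span_mono
  rintro F ⟨m, hm, rfl⟩
  exact ⟨m, hm.trans h, rfl⟩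

lemma PF_mon {d : ℕ} (m : Multiset ι) (hm : m.card ≤ d) :
    (fun v : ι → ℚ => (m.map v).prod) ∈ PF ι d :=
  Submodule.subset_span ⟨m, hm, rfl⟩

lemma PF_const (d : ℕ) (c : ℚ) : (fun _ : ι → ℚ => c) ∈ PF ι d := by
  have h := (PF ι d).smul_mem c (PF_mon (d := d) (0 : Multiset ι) (by simp))
  convert h using 1
  ext v; simp

lemma PF_var (i : ι) : (fun v : ι → ℚ => v i) ∈ PF ι 1 := by
  have h := PF_mon (d := 1) ({i} : Multiset ι) (by simp)
  simpa using h

lemma PF_mul {d e : ℕ} {F G : (ι → ℚ) → ℚ} (hF : F ∈ PF ι d) (hG : G ∈ PF ι e) :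
    (fun v => F v * G v) ∈ PF ι (d + e) := by
  induction hF using Submodule.span_induction with
  | mem F hF =>
    obtain ⟨m, hm, rfl⟩ := hF
    induction hG using Submodule.span_induction with
    | mem G hG =>
      obtain ⟨m', hm', rfl⟩ := hG
      have h := PF_mon (d := d + e) (m + m') (by simp; omega)
      simpa using h
    | zero => simpa using PF_const (ι := ι) (d + e) 0
    | add G G' _ _ h1 h2 =>
      have := (PF ι (d + e)).add_mem h1 h2
      convert this using 1
      ext v; simp [mul_add]
    | smul c G _ h1 =>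
      have := (PF ι (d + e)).smul_mem c h1
      convert this using 1
      ext v; simp; ring
  | zero => simpa using PF_const (ι := ι) (d + e) 0
  | add F F' _ _ h1 h2 =>
    have := (PF ι (d + e)).add_mem h1 h2
    convert this using 1
    ext v; simp [add_mul]
  | smul c F _ h1 =>
    have := (PF ι (d + e)).smul_mem c h1
    convert this using 1
    ext v; simp; ring

lemma PF_comp (φ : ι → (κ → ℚ) → ℚ) (hφ : ∀ i, φ i ∈ PF κ 1) {d : ℕ} {F : (ι → ℚ) → ℚ}
    (hF : F ∈ PF ι d) : (fun w => F (fun i => φ i w)) ∈ PF κ d := by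
  induction hF using Submodule.span_induction with
  | mem F hF =>
    obtain ⟨m, hm, rfl⟩ := hF
    refine PF_mono hm ?_
    clear hm
    induction m using Multiset.induction_on with
    | empty => simpa using PF_const (ι := κ) 0 1
    | cons a m ih =>
      have := PF_mul (hφ a) ih
      simpa [add_comm] using this
  | zero => simpa using PF_const (ι := κ) d 0
  | add F F' _ _ h1 h2 => exact (PF κ d).add_mem h1 h2
  | smul c F _ h1 => exact (PF κ d).smul_mem c h1

lemma PF_pow (i : ι) (k : ℕ) : (fun v : ι → ℚ => v i ^ k) ∈ PF ι k := by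
  have h := PF_mon (d := k) (Multiset.replicate k i) (by simp)
  simpa using h

lemma PF_bern (i : ι) (k : ℕ) :
    (fun v : ι → ℚ => (Polynomial.bernoulli k).eval (v i)) ∈ PF ι k := by
  have : (fun v : ι → ℚ => (Polynomial.bernoulli k).eval (v i)) =
      ∑ j ∈ range (k + 1), (_root_.bernoulli j * (k.choose j : ℚ)) •
        (fun v : ι → ℚ => v i ^ (k - j)) := by
    ext v
    simp [Polynomial.bernoulli, Polynomial.eval_finsetSum]
  rw [this]
  exact Submodule.sum_mem _ fun j _ =>
    Submodule.smul_mem _ _ (PF_mono (Nat.sub_le _ _) (PF_pow i _))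

lemma PF_antider [DecidableEq ι] (r : ι) {d : ℕ} {F : (ι → ℚ) → ℚ} (hF : F ∈ PF ι d) :
    ∃ Ψ ∈ PF ι (d + 1), ∀ v, Ψ (Function.update v r (v r + 1)) - Ψ v = F v := by
  induction hF using Submodule.span_induction with
  | mem F hF =>
    obtain ⟨m, hm, rfl⟩ := hF
    set k := m.count r with hk
    set m' := m.filter (fun i => i ≠ r) with hm'
    have hsplit : m = Multiset.replicate k r + m' := by
      ext a
      by_cases ha : a = r
      · subst ha; simp [hk, hm']
      · simp [hm', Multiset.count_replicate, ha, Ne.symm ha]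
    have hcard : k + m'.card ≤ d := by
      have := congrArg Multiset.card hsplit
      simp at this; omega
    refine ⟨fun v => ((Polynomial.bernoulli (k + 1)).eval (v r) * (m'.map v).prod)
      * (1 / ((k : ℚ) + 1)), ?_, ?_⟩
    · have h1 := PF_mul (PF_mul (PF_bern r (k + 1)) (PF_mon m' le_rfl))
        (PF_const (ι := ι) 0 (1 / ((k : ℚ) + 1)))
      exact PF_mono (by omega) h1
    · intro v
      have h2 : m'.map (Function.update v r (v r + 1)) = m'.map v := by
        apply Multiset.map_congr rfl
        intro a ha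
        have : a ≠ r := by
          have := (Multiset.mem_filter.mp ha).2
          simpa using this
        simp [Function.update_of_ne this]
      have h3 : (m.map v).prod = v r ^ k * (m'.map v).prod := by
        conv_lhs => rw [hsplit]
        simp
      have h4 := Polynomial.bernoulli_eval_one_add (k + 1) (v r)
      simp only [Function.update_self, h2, h3]
      rw [add_comm (v r) 1, h4]
      have : (k : ℚ) + 1 ≠ 0 := by positivity
      simp only [Nat.add_sub_cancel]
      push_cast
      field_simp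
      ring
  | zero => exact ⟨0, Submodule.zero_mem _, by simp⟩
  | add F F' _ _ h1 h2 =>
    obtain ⟨Ψ, hΨ, e1⟩ := h1
    obtain ⟨Ψ', hΨ', e2⟩ := h2
    refine ⟨Ψ + Ψ', Submodule.add_mem _ hΨ hΨ', fun v => ?_⟩
    simp only [Pi.add_apply, ← e1 v, ← e2 v]; ring
  | smul c F _ h1 =>
    obtain ⟨Ψ, hΨ, e1⟩ := h1
    refine ⟨c • Ψ, Submodule.smul_mem _ _ hΨ, fun v => ?_⟩
    simp only [Pi.smul_apply, smul_eq_mul, ← e1 v]; ring

/-- summation of a polynomial function over an interval of values of one variable -/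
lemma PF_sum [DecidableEq ι] (r : ι) {d : ℕ} {F : (ι → ℚ) → ℚ} (hF : F ∈ PF ι d) :
    ∃ Ψ ∈ PF ι (d + 1), ∀ (v : ι → ℚ) (a b : ℕ), a ≤ b →
      ∑ w ∈ Ico a b, F (Function.update v r w) =
        Ψ (Function.update v r b) - Ψ (Function.update v r a) := by
  obtain ⟨Ψ, hΨ, h⟩ := PF_antider r hF
  refine ⟨Ψ, hΨ, fun v a b hab => ?_⟩
  induction b, hab using Nat.le_induction with
  | base => simp
  | succ b hab ih =>
    rw [Finset.sum_Ico_succ_top hab, ih, ← h (Function.update v r b)]
    simp

end Pool.Agent.MP_2ef9c7_co.H88
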